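import Mathlib
import Pool.Agent.Helper920.SJ.Ext

set_option autoImplicit false

/-! Central closedness of the Steinberg group of an infinite division Jordan algebra whose
centroid has at least four elements, or which is of the form `D⁺`. -/

namespace Pool.Agent.Results.MP_8712e2_al.LargeCentroid

open scoped commutatorElement
open Pool.Agent.Helper920.SJ

universe u v

variable {J : Type u} [AddCommGroup J]

/-- the root groups of the Steinberg group -/
noncomputable def dat (Q : QJ J) : Dat Q Q.St where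
  x σ a := PresentedGroup.of (σ, a)
  hx σ a b := by
    have h := PresentedGroup.mk_eq_mk_of_mul_inv_mem (rels := Q.rels)
      (x := FreeGroup.of (σ, a) * FreeGroup.of (σ, b)) (y := FreeGroup.of (σ, a + b))
      (Or.inl ⟨σ, a, b, rfl⟩)
    rw [map_mul] at h
    exact h.symm
  hw b hb a := by
    have h := PresentedGroup.mk_eq_mk_of_mul_inv_mem (rels := Q.rels)
      (x := Q.wWord b * FreeGroup.of (false, a) * (Q.wWord b)⁻¹)
      (y := FreeGroup.of (true, Q.U b a)) (Or.inr ⟨a, b, hb, rfl⟩)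
    simp only [QJ.wWord, map_mul, map_inv] at h
    exact h
  gen := PresentedGroup.closure_range_of Q.rels

/-- An equivariant lift of `U₊` yields a splitting. -/
lemma split_of_sec (Q : QJ J) {E : Type v} [Group E] (p : E →* Q.St)
    (hp : Function.Surjective p) (s : J → E) (hps : ∀ a, p (s a) = (dat Q).x true a)
    (hadd : ∀ a b, s (a + b) = s a * s b)
    (hQ : Q.IsDivision)
    (heq : ∀ b : J, b ≠ 0 → ∀ e : E, p e = (dat Q).H b → ∀ a, e * s a * e⁻¹ = s (Q.U b a)) :
    ∃ S : Q.St →* E, p.comp S = MonoidHom.id _ := by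
  obtain ⟨e1, he1⟩ := hp ((dat Q).W Q.one)
  let ψ : Bool × J → E := fun q => bif q.1 then s q.2 else e1⁻¹ * s q.2 * e1
  have hψt : ∀ a, ψ (true, a) = s a := fun _ => rfl
  have hψf : ∀ a, ψ (false, a) = e1⁻¹ * s a * e1 := fun _ => rfl
  have hψ : ∀ q : Bool × J, p (ψ q) = (dat Q).x q.1 q.2 := by
    rintro ⟨σ, a⟩
    cases σ
    · rw [hψf, map_mul, map_mul, map_inv, hps, he1, (dat Q).one_conj hQ]
    · rw [hψt, hps]
  have hrel : ∀ r ∈ Q.rels, FreeGroup.lift ψ r = 1 := by
    rintro r (⟨σ, a, b, rfl⟩ | ⟨a, b, hb, rfl⟩)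
    · rw [map_mul, map_mul, map_inv, FreeGroup.lift_apply_of, FreeGroup.lift_apply_of,
        FreeGroup.lift_apply_of]
      cases σ
      · rw [hψf, hψf, hψf, hadd]
        group
      · rw [hψt, hψt, hψt, hadd]
        group
    · set w : E := FreeGroup.lift ψ (Q.wWord b) with hw
      have hpw : p w = (dat Q).W b := by
        simp only [hw, QJ.wWord, map_mul, FreeGroup.lift_apply_of, hψ]
        rfl
      have h1 := heq b hb (w * e1⁻¹) (by rw [map_mul, map_inv, hpw, he1]; rfl) a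
      rw [map_mul, map_mul, map_mul, map_inv, map_inv, ← hw, FreeGroup.lift_apply_of,
        FreeGroup.lift_apply_of, hψf, hψt, ← h1]
      group
  refine ⟨PresentedGroup.toGroup hrel, PresentedGroup.ext fun q => ?_⟩
  rw [MonoidHom.comp_apply, PresentedGroup.toGroup.of, MonoidHom.id_apply]
  exact hψ q

lemma perfect_of (Q : QJ J) (hQ : Q.IsDivision) {g : Q.St} {A A' : J → J}
    (hg : (dat Q).Acts g A A') (hA : Function.Surjective fun c => A c - c) :
    commutator Q.St = ⊤ := by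
  have h1 : ∀ a, (dat Q).x true a ∈ commutator Q.St := by
    intro a
    obtain ⟨c, rfl⟩ := hA a
    show (dat Q).x true (A c - c) ∈ _
    rw [(dat Q).x_sub, ← hg.1]
    exact Subgroup.commutator_mem_commutator (Subgroup.mem_top g) (Subgroup.mem_top _)
  rw [eq_top_iff, ← (dat Q).gen, Subgroup.closure_le]
  rintro _ ⟨⟨σ, a⟩, rfl⟩
  cases σ
  · show (dat Q).x false a ∈ commutator Q.St
    rw [← (dat Q).one_conj hQ]
    have := (inferInstance : (commutator Q.St).Normal).conj_mem _ (h1 a) ((dat Q).W Q.one)⁻¹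
    rwa [inv_inv] at this
  · exact h1 a

lemma inv_comm {f g : J → J} (hf : Function.Bijective f) (hg : Function.Bijective g)
    (h : ∀ a, f (g a) = g (f a)) (a : J) :
    Function.invFun f (Function.invFun g a) = Function.invFun g (Function.invFun f a) := by
  have hf' : ∀ y, f (Function.invFun f y) = y := fun y => Function.invFun_eq (hf.2 y)
  have hg' : ∀ y, g (Function.invFun g y) = y := fun y => Function.invFun_eq (hg.2 y)
  apply hg.1
  apply hf.1
  rw [h, hf', hg', hg', hf']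

lemma acts_H (Q : QJ J) (hQ : Q.IsDivision) {b : J} (hb : b ≠ 0) :
    (dat Q).Acts ((dat Q).H b) (Q.U b) (Function.invFun (Q.U b)) := by
  refine ⟨(dat Q).H_pos hQ hb, fun a => ?_⟩
  have h1 := (dat Q).H_neg hQ hb (Function.invFun (Q.U b) a)
  rwa [Function.invFun_eq ((hQ.2 b hb).2 a)] at h1

/-! ### The centroid -/

lemma bij_of_sq (Q : QJ J) (hQ : Q.IsDivision) (T : J →+ J) (h0 : T ≠ 0)
    (hsq : ∀ a x, Q.U (T a) x = T (T (Q.U a x))) : Function.Bijective T := by
  obtain ⟨a, ha⟩ : ∃ a, T a ≠ 0 := by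
    by_contra hc
    push Not at hc
    exact h0 (AddMonoidHom.ext hc)
  have ha0 : a ≠ 0 := by
    rintro rfl
    exact ha (map_zero T)
  have hT := hQ.2 (T a) ha
  have hU := hQ.2 a ha0
  constructor
  · intro y z hyz
    obtain ⟨y', rfl⟩ := hU.2 y
    obtain ⟨z', rfl⟩ := hU.2 z
    have : Q.U (T a) y' = Q.U (T a) z' := by rw [hsq, hsq, hyz]
    rw [hT.1 this]
  · intro y
    obtain ⟨x, hx⟩ := hT.2 y
    exact ⟨T (Q.U a x), by rw [← hsq, hx]⟩

lemma sq_add (Q : QJ J) (T : J →+ J) (hT : Q.InCentroid T) (ε : ℤ) (a x : J) :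
    Q.U ((T + ε • AddMonoidHom.id J) a) x =
      (T + ε • AddMonoidHom.id J) ((T + ε • AddMonoidHom.id J) (Q.U a x)) := by
  have h1 : (T + ε • AddMonoidHom.id J) a = T a + ε • a := rfl
  have h2 : ∀ y, (T + ε • AddMonoidHom.id J) y = T y + ε • y := fun _ => rfl
  have h3 := hT.2.2 a (ε • a) x
  have h4 : polar Q.U a (ε • a) x = (2 * ε) • Q.U a x := by
    have e1 : a + ε • a = (1 + ε) • a := by rw [add_smul, one_smul]
    simp only [polar, AddMonoidHom.sub_apply, e1, Q.U_zsmul]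
    module
  rw [h4] at h3
  simp only [polar, AddMonoidHom.sub_apply] at h3
  rw [hT.2.1, Q.U_zsmul, sub_eq_iff_eq_add, sub_eq_iff_eq_add] at h3
  rw [h1, h3, h2, h2]
  simp only [map_add, map_zsmul]
  module

lemma case_centroid [Infinite J] (Q : QJ J) (hQ : Q.IsDivision) (T : J →+ J)
    (hT : Q.InCentroid T) (h0 : T ≠ 0) (h1 : T ≠ AddMonoidHom.id J)
    (hm1 : T ≠ -AddMonoidHom.id J) : CentrallyClosed.{u, v} Q.St := by
  have hTb : Function.Bijective T := bij_of_sq Q hQ T h0 hT.2.1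
  have hTp : Function.Bijective (T + (1 : ℤ) • AddMonoidHom.id J) :=
    bij_of_sq Q hQ _ (by
      intro hc
      apply hm1
      rw [one_smul] at hc
      exact eq_neg_of_add_eq_zero_left hc) (sq_add Q T hT 1)
  have hTm : Function.Bijective (T + (-1 : ℤ) • AddMonoidHom.id J) :=
    bij_of_sq Q hQ _ (by
      intro hc
      apply h1
      rw [neg_smul, one_smul] at hc
      exact (sub_eq_zero.mp (by rw [sub_eq_add_neg]; exact hc))) (sq_add Q T hT (-1))
  set t : J := T Q.one with ht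
  have ht0 : t ≠ 0 := by
    intro hc
    apply hQ.1
    apply hTb.1
    rw [map_zero]
    exact hc
  have hUt : ∀ x, Q.U t x = T (T x) := by
    intro x
    rw [ht, hT.2.1, Q.U_one]
  have hg := acts_H Q hQ ht0
  have hA : Function.Bijective fun c => Q.U t c - c := by
    have h2 : (fun c => Q.U t c - c) = (T + (1 : ℤ) • AddMonoidHom.id J) ∘
        (T + (-1 : ℤ) • AddMonoidHom.id J) := by
      funext c
      show Q.U t c - c = T (T c + (-1 : ℤ) • c) + (1 : ℤ) • (T c + (-1 : ℤ) • c)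
      rw [hUt, map_add, map_zsmul]
      module
    rw [h2]
    exact hTp.comp hTm
  have hperf := perfect_of Q hQ hg hA.2
  refine ⟨hperf, fun E _ p hp hker => ?_⟩
  obtain ⟨s, hs1, hs2, hs3⟩ := exists_sec hQ (dat Q) p hp hker hg hA (fun a b => map_add _ a b)
  refine split_of_sec Q p hp s hs2 hs3 hQ fun b hb e he a => ?_
  have hH := acts_H Q hQ hb
  have hc1 : ∀ a, Q.U t (Q.U b a) = Q.U b (Q.U t a) := by
    intro a
    rw [hUt, hUt, hT.1, hT.1]
  refine sec_conj (dat Q) p hp hker hs1 hs1 hA.2 (B' := Function.invFun (Q.U b))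
    (by rw [he]; exact hH) ?_ (fun a b => map_sub _ a b) hc1 a
  intro k
  apply cm_mod_center p hp hker hperf
  rw [he]
  exact (dat Q).comm_center hg hH hc1 (inv_comm (hQ.2 t ht0) (hQ.2 b hb) hc1)

/-! ### The case `D⁺` -/

section plus

variable {D : Type u} [DivisionRing D] (e : J ≃+ D)

/-- `a ↦ u a v` on `J = D⁺` -/
def LR (w z : D) : J → J := fun a => e.symm (w * e a * z)

lemma LR_comp (w z w' z' : D) (a : J) : (LR e w z ∘ LR e w' z') a = LR e (w * w') (z' * z) a := by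
  simp only [LR, Function.comp_apply, AddEquiv.apply_symm_apply, mul_assoc]

lemma LR_sub (w z : D) (a b : J) : LR e w z (a - b) = LR e w z a - LR e w z b := by
  simp only [LR, map_sub, mul_sub, sub_mul]

lemma LR_add (w z : D) (a b : J) : LR e w z (a + b) = LR e w z a + LR e w z b := by
  simp only [LR, map_add, mul_add, add_mul]

lemma LR_left_bij {w : D} (hw : w ≠ 1) : Function.Bijective fun c => LR e w 1 c - c := by
  have hw' : w - 1 ≠ 0 := sub_ne_zero.mpr hw
  have h1 : ∀ c, LR e w 1 c - c = e.symm ((w - 1) * e c) := by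
    intro c
    apply e.injective
    rw [map_sub, LR, AddEquiv.apply_symm_apply, AddEquiv.apply_symm_apply, mul_one, sub_mul,
      one_mul]
  constructor
  · intro c d hcd
    have h2 : LR e w 1 c - c = LR e w 1 d - d := hcd
    rw [h1, h1] at h2
    exact e.injective (mul_left_cancel₀ hw' (e.symm.injective h2))
  · intro y
    refine ⟨e.symm ((w - 1)⁻¹ * e y), ?_⟩
    show LR e w 1 _ - _ = y
    rw [h1, AddEquiv.apply_symm_apply, mul_inv_cancel_left₀ hw', AddEquiv.symm_apply_apply]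

lemma LR_right_bij {w : D} (hw : w ≠ 1) : Function.Bijective fun c => LR e 1 w c - c := by
  have hw' : w - 1 ≠ 0 := sub_ne_zero.mpr hw
  have h1 : ∀ c, LR e 1 w c - c = e.symm (e c * (w - 1)) := by
    intro c
    apply e.injective
    rw [map_sub, LR, AddEquiv.apply_symm_apply, AddEquiv.apply_symm_apply, one_mul, mul_sub,
      mul_one]
  constructor
  · intro c d hcd
    have h2 : LR e 1 w c - c = LR e 1 w d - d := hcd
    rw [h1, h1] at h2
    exact e.injective (mul_right_cancel₀ hw' (e.symm.injective h2))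
  · intro y
    refine ⟨e.symm (e y * (w - 1)⁻¹), ?_⟩
    show LR e 1 w _ - _ = y
    rw [h1, AddEquiv.apply_symm_apply, inv_mul_cancel_right₀ hw', AddEquiv.symm_apply_apply]

variable (Q : QJ J) (hQ : Q.IsDivision) (he : ∀ a x : J, e (Q.U a x) = e a * e x * e a)

include hQ he in
lemma acts_D {β : D} (hβ : β ≠ 0) :
    (dat Q).Acts ((dat Q).H (e.symm β)) (LR e β β) (LR e β⁻¹ β⁻¹) := by
  have hb : e.symm β ≠ 0 := by
    intro hc
    apply hβ
    have := congrArg e hc
    rwa [AddEquiv.apply_symm_apply, map_zero] at this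
  have hU : ∀ a, Q.U (e.symm β) a = LR e β β a := by
    intro a
    apply e.injective
    rw [he, LR, AddEquiv.apply_symm_apply, AddEquiv.apply_symm_apply]
  constructor
  · intro a
    rw [(dat Q).H_pos hQ hb, hU]
  · intro a
    have h1 := (dat Q).H_neg hQ hb (LR e β⁻¹ β⁻¹ a)
    have h2 : LR e β β (LR e β⁻¹ β⁻¹ a) = a := by
      simp only [LR, AddEquiv.apply_symm_apply]
      rw [← mul_assoc, ← mul_assoc, mul_inv_cancel₀ hβ, one_mul, mul_assoc, inv_mul_cancel₀ hβ,
        mul_one, AddEquiv.symm_apply_apply]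
    rwa [hU, h2] at h1

lemma acts_inv {g : Q.St} {w z w' z' : D} (hw : w ≠ 0) (hz : z ≠ 0) (hw' : w' ≠ 0)
    (hz' : z' ≠ 0) (hg : (dat Q).Acts g (LR e w z) (LR e w' z')) :
    (dat Q).Acts g⁻¹ (LR e w⁻¹ z⁻¹) (LR e w'⁻¹ z'⁻¹) := by
  have h2 : ∀ {w z : D}, w ≠ 0 → z ≠ 0 → ∀ a, LR e w z (LR e w⁻¹ z⁻¹ a) = a := by
    intro w z hw hz a
    simp only [LR, AddEquiv.apply_symm_apply]
    rw [← mul_assoc, ← mul_assoc, mul_inv_cancel₀ hw, one_mul, mul_assoc, inv_mul_cancel₀ hz,
      mul_one, AddEquiv.symm_apply_apply]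
  exact hg.inv (dat Q) (h2 hw hz) (h2 hw' hz')

lemma acts_mul {g k : Q.St} {w z w' z' x y x' y' : D}
    (hg : (dat Q).Acts g (LR e w z) (LR e w' z')) (hk : (dat Q).Acts k (LR e x y) (LR e x' y')) :
    (dat Q).Acts (g * k) (LR e (w * x) (y * z)) (LR e (w' * x') (y' * z')) :=
  (hg.mul (dat Q) hk).congr (dat Q) (LR_comp e _ _ _ _) (LR_comp e _ _ _ _)

include hQ he in
lemma case_noncomm [Infinite J] {β γ : D} (hβγ : β * γ ≠ γ * β) :
    CentrallyClosed.{u, v} Q.St := by
  have hβ : β ≠ 0 := by rintro rfl; simp at hβγ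
  have hγ : γ ≠ 0 := by rintro rfl; simp at hβγ
  have hcb : γ * β ≠ 0 := mul_ne_zero hγ hβ
  have hbc : β * γ ≠ 0 := mul_ne_zero hβ hγ
  have aβ := acts_D e Q hQ he hβ
  have aγ := acts_D e Q hQ he hγ
  have acb := acts_D e Q hQ he hcb
  have abc := acts_D e Q hQ he hbc
  have icb := acts_inv e Q hcb hcb (inv_ne_zero hcb) (inv_ne_zero hcb) acb
  have ibc := acts_inv e Q hbc hbc (inv_ne_zero hbc) (inv_ne_zero hbc) abc
  have a0 := acts_mul e Q (acts_mul e Q aβ aγ) icb
  have a1 := acts_mul e Q (acts_mul e Q aβ aγ) ibc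
  set g0 : Q.St := (dat Q).H (e.symm β) * (dat Q).H (e.symm γ) *
    ((dat Q).H (e.symm (γ * β)))⁻¹ with hg0
  set g1 : Q.St := (dat Q).H (e.symm β) * (dat Q).H (e.symm γ) *
    ((dat Q).H (e.symm (β * γ)))⁻¹ with hg1
  set w : D := β * γ * (γ * β)⁻¹ with hw
  set z : D := (β * γ)⁻¹ * (γ * β) with hz
  have e1 : (γ * β)⁻¹ * (γ * β) = 1 := inv_mul_cancel₀ hcb
  have e2 : β⁻¹ * γ⁻¹ * (γ * β)⁻¹⁻¹ = 1 := by
    rw [inv_inv, ← mul_inv_rev, inv_mul_cancel₀ hcb]
  have e3 : (γ * β)⁻¹⁻¹ * (γ⁻¹ * β⁻¹) = w⁻¹ := by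
    rw [hw, mul_inv_rev (β * γ) (γ * β)⁻¹, mul_inv_rev β γ]
  have e4 : β * γ * (β * γ)⁻¹ = 1 := mul_inv_cancel₀ hbc
  have e5 : (β * γ)⁻¹⁻¹ * (γ⁻¹ * β⁻¹) = 1 := by
    rw [inv_inv, ← mul_inv_rev, mul_inv_cancel₀ hbc]
  have e6 : β⁻¹ * γ⁻¹ * (β * γ)⁻¹⁻¹ = z⁻¹ := by
    rw [hz, mul_inv_rev (β * γ)⁻¹ (γ * β), mul_inv_rev γ β]
  have b0 : (dat Q).Acts g0 (LR e w 1) (LR e 1 w⁻¹) := by
    rw [e1, e2, e3] at a0
    exact a0
  have b1 : (dat Q).Acts g1 (LR e 1 z) (LR e z⁻¹ 1) := by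
    rw [e4, e5, e6] at a1
    exact a1
  have hw1 : w ≠ 1 := by
    intro hc
    apply hβγ
    rw [hw] at hc
    exact (mul_inv_eq_one₀ hcb).mp hc
  have hz1 : z ≠ 1 := by
    intro hc
    apply hβγ
    rw [hz] at hc
    exact (inv_mul_eq_one₀ hbc).mp hc
  have hw0 : w ≠ 0 := mul_ne_zero hbc (inv_ne_zero hcb)
  have bij0 := LR_left_bij e hw1
  have bij1 := LR_right_bij e hz1
  have hperf := perfect_of Q hQ b0 bij0.2
  refine ⟨hperf, fun E _ p hp hker => ?_⟩
  obtain ⟨s0, hs1, hs2, hs3⟩ := exists_sec hQ (dat Q) p hp hker b0 bij0 (LR_add e _ _)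
  obtain ⟨s1, hs1', hs2', hs3'⟩ := exists_sec hQ (dat Q) p hp hker b1 bij1 (LR_add e _ _)
  have hcomm : ∀ (x y : D) (a : J), LR e x 1 (LR e 1 y a) = LR e 1 y (LR e x 1 a) := by
    intro x y a
    simp only [LR, AddEquiv.apply_symm_apply, mul_one, one_mul, mul_assoc]
  refine split_of_sec Q p hp s0 hs2 hs3 hQ fun b hb f hf a => ?_
  set β' : D := e b with hβ'
  have hβ'0 : β' ≠ 0 := by
    intro hc
    apply hb
    exact e.injective (by rw [map_zero]; exact hc)
  have hsb : e.symm β' = b := by rw [hβ', AddEquiv.symm_apply_apply]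
  have aH := acts_D e Q hQ he hβ'0
  rw [hsb] at aH
  have iH := acts_inv e Q hβ'0 hβ'0 (inv_ne_zero hβ'0) (inv_ne_zero hβ'0) aH
  have a2 := acts_mul e Q (acts_mul e Q aH b0) iH
  set g2 : Q.St := (dat Q).H b * g0 * ((dat Q).H b)⁻¹ with hg2
  have e7 : β'⁻¹ * (1 * β') = 1 := by rw [one_mul, inv_mul_cancel₀ hβ'0]
  have e8 : β'⁻¹ * 1 * β'⁻¹⁻¹ = 1 := by rw [mul_one, inv_inv, inv_mul_cancel₀ hβ'0]
  have b2 : (dat Q).Acts g2 (LR e (β' * w * β'⁻¹) 1) (LR e 1 (β'⁻¹⁻¹ * (w⁻¹ * β'⁻¹))) := by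
    rw [e7, e8] at a2
    exact a2
  have hw2 : β' * w * β'⁻¹ ≠ 1 := by
    intro hc
    apply hw1
    have h3 : β' * w = β' := by
      rw [mul_inv_eq_one₀ hβ'0] at hc
      exact hc
    exact mul_left_cancel₀ hβ'0 (by rw [h3, mul_one])
  have bij2 := LR_left_bij e hw2
  obtain ⟨s2, hs1'', hs2'', hs3''⟩ := exists_sec hQ (dat Q) p hp hker b2 bij2 (LR_add e _ _)
  have hs01 : ∀ a, s0 a = s1 a :=
    sec_unique (dat Q) p hp hker hperf b0 b1 hs1 hs1' hs3 hs2 bij0.2 bij1.2 (LR_sub e _ _)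
      (hcomm _ _) (fun a => (hcomm _ _ a).symm)
  have hs21 : ∀ a, s2 a = s1 a :=
    sec_unique (dat Q) p hp hker hperf b2 b1 hs1'' hs1' hs3'' hs2'' bij2.2 bij1.2 (LR_sub e _ _)
      (hcomm _ _) (fun a => (hcomm _ _ a).symm)
  have h4 : f * s0 a * f⁻¹ = s2 (LR e β' β' a) := by
    refine sec_conj (dat Q) p hp hker hs1 hs1'' bij0.2 (B' := LR e β'⁻¹ β'⁻¹)
      (by rw [hf]; exact aH) ?_ (LR_sub e _ _) ?_ a
    · intro k
      rw [hf]
    · intro a
      simp only [LR, AddEquiv.apply_symm_apply, mul_one, mul_assoc]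
      rw [inv_mul_cancel_left₀ hβ'0]
  have h5 : LR e β' β' a = Q.U b a := by
    apply e.injective
    rw [he, LR, AddEquiv.apply_symm_apply]
  rw [h4, h5, hs21, hs01]

end plus

lemma case_comm [Infinite J] {F : Type u} [Field F] (e : J ≃+ F) (Q : QJ J)
    (hQ : Q.IsDivision) (he : ∀ a x : J, e (Q.U a x) = e a * e x * e a) (h1 : e Q.one = 1) :
    CentrallyClosed.{u, v} Q.St := by
  classical
  have hinf : Infinite F := Infinite.of_injective e e.injective
  obtain ⟨c, hc⟩ := Infinite.exists_notMem_finset ({0, 1, -1} : Finset F)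
  simp only [Finset.mem_insert, Finset.mem_singleton, not_or] at hc
  let T : J →+ J := AddMonoidHom.mk' (fun a => e.symm (c * e a)) (by
    intro a b
    rw [map_add, mul_add, map_add])
  have hT : ∀ a, T a = e.symm (c * e a) := fun _ => rfl
  have heT : ∀ a, e (T a) = c * e a := by
    intro a; rw [hT, AddEquiv.apply_symm_apply]
  refine case_centroid Q hQ T ⟨?_, ?_, ?_⟩ ?_ ?_ ?_
  · intro a x
    apply e.injective
    rw [heT, he, he, heT]
    ring
  · intro a x
    apply e.injective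
    rw [heT, heT, he, he, heT]
    ring
  · intro a b x
    apply e.injective
    simp only [polar, AddMonoidHom.sub_apply, map_sub, he, map_add, heT]
    ring
  · intro hc'
    have := congrArg e (DFunLike.congr_fun hc' Q.one)
    rw [heT, h1, mul_one, AddMonoidHom.zero_apply, map_zero] at this
    exact hc.1 this
  · intro hc'
    have := congrArg e (DFunLike.congr_fun hc' Q.one)
    rw [heT, h1, mul_one, AddMonoidHom.id_apply, h1] at this
    exact hc.2.1 this
  · intro hc'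
    have := congrArg e (DFunLike.congr_fun hc' Q.one)
    rw [heT, h1, mul_one, AddMonoidHom.neg_apply, AddMonoidHom.id_apply, map_neg, h1] at this
    exact hc.2.2 this

/-- Let `J` be an infinite division Jordan algebra whose centroid contains an element other than
`0, 1, -1`, or which is isomorphic to `D⁺` for some division ring `D`. Then the Steinberg group
`St(J)` is centrally closed. -/
theorem result (J : Type u) [AddCommGroup J] [Infinite J] (Q : QJ J) (hQ : Q.IsDivision)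
    (h : (∃ T : J →+ J, Q.InCentroid T ∧ T ≠ 0 ∧ T ≠ AddMonoidHom.id J ∧
      T ≠ -AddMonoidHom.id J) ∨ Q.IsPlus) :
    CentrallyClosed.{u, v} Q.St := by
  rcases h with ⟨T, hT, h0, h1, h2⟩ | ⟨D, _, e, h1, he⟩
  · exact case_centroid Q hQ T hT h0 h1 h2
  · by_cases hc : ∀ β γ : D, β * γ = γ * β
    · let _ : Field D := { ‹DivisionRing D› with mul_comm := hc }
      exact case_comm (F := D) e Q hQ he h1
    · push Not at hc
      obtain ⟨β, γ, hβγ⟩ := hc
      exact case_noncomm e Q hQ he hβγ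

end Pool.Agent.Results.MP_8712e2_al.LargeCentroid
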